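import Pool.Agent.Run7.h789.Reg

set_option autoImplicit false

/-!
Counting regular quadruples through the pairs they contain (helper789).
-/

namespace Pool.Agent.Run7.h789

open Finset

/-- Double counting: the elements of a family of two-element sets. -/
theorem sum_deg_two (T : Finset ℚ) (E : Finset (Finset ℚ)) (hE : ∀ e ∈ E, e ⊆ T ∧ e.card = 2) :
    ∑ c ∈ T, (E.filter (fun e => c ∈ e)).card = 2 * E.card := by
  have h := Finset.sum_card_bipartiteAbove_eq_sum_card_bipartiteBelow (s := T) (t := E)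
    (fun (c : ℚ) (e : Finset ℚ) => c ∈ e)
  simp only [Finset.bipartiteAbove, Finset.bipartiteBelow] at h
  rw [h]
  have : ∀ e ∈ E, (T.filter (fun c => c ∈ e)).card = 2 := by
    intro e he
    have h2 : T.filter (fun c => c ∈ e) = e := by
      ext x; simp only [mem_filter]
      exact ⟨fun h => h.2, fun h => ⟨(hE e he).1 h, h⟩⟩
    rw [h2]; exact (hE e he).2
  rw [Finset.sum_congr rfl this, Finset.sum_const, smul_eq_mul, mul_comm]

/-- Double counting: each member of a family of four-element subsets contains six pairs. -/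
theorem sum_pairs (t : Finset ℚ) (Q : Finset (Finset ℚ)) (hQ : ∀ q ∈ Q, q ⊆ t ∧ q.card = 4) :
    ∑ p ∈ t.powersetCard 2, (Q.filter (fun q => p ⊆ q)).card = 6 * Q.card := by
  have h := Finset.sum_card_bipartiteAbove_eq_sum_card_bipartiteBelow (s := t.powersetCard 2)
    (t := Q) (fun (p : Finset ℚ) (q : Finset ℚ) => p ⊆ q)
  simp only [Finset.bipartiteAbove, Finset.bipartiteBelow] at h
  rw [h]
  have : ∀ q ∈ Q, ((t.powersetCard 2).filter (fun p => p ⊆ q)).card = 6 := by
    intro q hq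
    have h2 : (t.powersetCard 2).filter (fun p => p ⊆ q) = q.powersetCard 2 := by
      ext x; simp only [mem_filter, mem_powersetCard]
      exact ⟨fun h => ⟨h.2, h.1.2⟩, fun h => ⟨⟨h.1.trans (hQ q hq).1, h.2⟩, h.1⟩⟩
    rw [h2, card_powersetCard, (hQ q hq).2]; decide
  rw [Finset.sum_congr rfl this, Finset.sum_const, smul_eq_mul, mul_comm]

/-- A pair of elements of a seven-element set of rationals lies in at most four regular
quadruples of the set. -/
theorem pair_le_four {t : Finset ℚ} (hc : t.card = 7) (Q : Finset (Finset ℚ))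
    (hQ : ∀ q ∈ Q, q ⊆ t ∧ IsRegularQuad q) {a b : ℚ} (ha : a ∈ t) (hb : b ∈ t) (hab : a ≠ b) :
    (Q.filter (fun q => ({a, b} : Finset ℚ) ⊆ q)).card ≤ 4 := by
  classical
  set T : Finset ℚ := t \ {a, b} with hTdef
  have hpair : ({a, b} : Finset ℚ).card = 2 := Finset.card_pair hab
  have hsubab : ({a, b} : Finset ℚ) ⊆ t := by
    intro x hx; simp only [mem_insert, mem_singleton] at hx; rcases hx with rfl | rfl <;> assumption
  have hT : T.card = 5 := by
    rw [hTdef, card_sdiff_of_subset hsubab, hc, hpair]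
  -- the edges
  set F := Q.filter (fun q => ({a, b} : Finset ℚ) ⊆ q) with hF
  set E : Finset (Finset ℚ) := F.image (fun q => q \ {a, b}) with hE
  have hcardq : ∀ q ∈ F, q.card = 4 := by
    intro q hq
    obtain ⟨x, y, z, w, _, h4, _⟩ := (hQ q (mem_filter.1 hq).1).2
    exact h4
  have hinj : Set.InjOn (fun q : Finset ℚ => q \ {a, b}) (F : Set (Finset ℚ)) := by
    intro q1 h1 q2 h2 h
    have s1 := (mem_filter.1 (mem_coe.1 h1)).2
    have s2 := (mem_filter.1 (mem_coe.1 h2)).2
    have e1 : q1 = (q1 \ {a, b}) ∪ {a, b} := (sdiff_union_of_subset s1).symm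
    have e2 : q2 = (q2 \ {a, b}) ∪ {a, b} := (sdiff_union_of_subset s2).symm
    rw [e1, e2]; simp only at h; rw [h]
  have hcardE : E.card = F.card := card_image_of_injOn hinj
  have hEprop : ∀ e ∈ E, e ⊆ T ∧ e.card = 2 := by
    intro e he
    obtain ⟨q, hq, rfl⟩ := mem_image.1 he
    refine ⟨?_, ?_⟩
    · intro x hx
      rw [mem_sdiff] at hx
      rw [hTdef, mem_sdiff]
      exact ⟨(hQ q (mem_filter.1 hq).1).1 hx.1, hx.2⟩
    · rw [card_sdiff_of_subset (mem_filter.1 hq).2, hcardq q hq, hpair]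
  -- adjacency
  have hrel : ∀ c d : ℚ, c ≠ d → ({c, d} : Finset ℚ) ∈ E → Rel a b c d := by
    intro c d hcd he
    obtain ⟨q, hq, hqe⟩ := mem_image.1 he
    have hsub := (mem_filter.1 hq).2
    have hcq : c ∈ q \ {a, b} := by rw [hqe]; simp
    have hdq : d ∈ q \ {a, b} := by rw [hqe]; simp
    simp only [mem_sdiff, mem_insert, mem_singleton, not_or] at hcq hdq
    have hq4 : q = {a, b, c, d} := by
      have : q = (q \ {a, b}) ∪ {a, b} := (sdiff_union_of_subset hsub).symm
      rw [this, hqe]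
      ext x; simp only [mem_union, mem_insert, mem_singleton]; tauto
    exact rel_of_regular (hQ q (mem_filter.1 hq).1).2 hab (Ne.symm hcq.2.1) (Ne.symm hdq.2.1)
      (Ne.symm hcq.2.2) (Ne.symm hdq.2.2) hcd hq4
  let N : ℚ → Finset ℚ := fun c => T.filter (fun d => d ≠ c ∧ ({c, d} : Finset ℚ) ∈ E)
  have hNmem : ∀ c d, d ∈ N c ↔ d ∈ T ∧ d ≠ c ∧ ({c, d} : Finset ℚ) ∈ E := by
    intro c d; simp only [N, mem_filter]
  have hNsum : ∀ c ∈ T, ∀ d ∈ N c, ∀ e ∈ N c, d ≠ e →
      d + e = (4 * (a * b) + 2) * c + 2 * (a + b) := by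
    intro c _ d hd e he hde
    rw [hNmem] at hd he
    exact (hrel c d hd.2.1.symm hd.2.2).sum_eq (hrel c e he.2.1.symm he.2.2) hde
  have hNle : ∀ c ∈ T, (N c).card ≤ 2 := by
    intro c hcT
    by_contra hcon
    push Not at hcon
    obtain ⟨x, hx, y, hy, z, hz, hxy, hxz, hyz⟩ := two_lt_card.1 hcon
    have h1 := hNsum c hcT x hx y hy hxy
    have h2 := hNsum c hcT x hx z hz hxz
    exact hyz (by linarith)
  have hdeg : ∀ c ∈ T, (E.filter (fun e => c ∈ e)).card ≤ (N c).card := by
    intro c hcT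
    apply card_le_card_of_surjOn (fun d => ({c, d} : Finset ℚ))
    intro e he
    rw [mem_coe, mem_filter] at he
    obtain ⟨x, y, hxy, rfl⟩ := card_eq_two.1 (hEprop _ he.1).2
    have hxT := (hEprop _ he.1).1 (mem_insert_self x {y})
    have hyT := (hEprop _ he.1).1 (mem_insert_of_mem (mem_singleton_self y))
    have hmem := he.2
    simp only [mem_insert, mem_singleton] at hmem
    rcases hmem with rfl | rfl
    · refine ⟨y, ?_, rfl⟩
      rw [mem_coe, hNmem]; exact ⟨hyT, hxy.symm, he.1⟩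
    · refine ⟨x, ?_, pair_comm _ _⟩
      rw [mem_coe, hNmem, pair_comm]; exact ⟨hxT, hxy, he.1⟩
  by_contra hcon
  push Not at hcon
  have h5 : 5 ≤ E.card := by rw [hcardE]; exact hcon
  have hsum := sum_deg_two T E hEprop
  have hall : ∀ c ∈ T, (N c).card = 2 := by
    intro c hcT
    by_contra hne
    have hlt : (E.filter (fun e => c ∈ e)).card < 2 :=
      lt_of_le_of_lt (hdeg c hcT) (lt_of_le_of_ne (hNle c hcT) hne)
    have : ∑ c ∈ T, (E.filter (fun e => c ∈ e)).card < ∑ _c ∈ T, 2 :=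
      sum_lt_sum (fun i hi => (hdeg i hi).trans (hNle i hi)) ⟨c, hcT, hlt⟩
    rw [hsum, sum_const, smul_eq_mul, hT] at this
    omega
  refine no_two_regular hT N (l := 4 * (a * b) + 2) (m := 2 * (a + b)) ?_ ?_ ?_ hall hNsum
  · intro c _ x hx; exact ((hNmem c x).1 hx).1
  · intro c _ h; exact ((hNmem c c).1 h).2.1 rfl
  · intro c hcT d hdT hd
    rw [hNmem] at hd ⊢
    exact ⟨hcT, hd.2.1.symm, by rw [pair_comm]; exact hd.2.2⟩

/-- A family of regular quadruples in a seven-element set of rationals has at most 14 members. -/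
theorem quads_le {t : Finset ℚ} (hc : t.card = 7) (Q : Finset (Finset ℚ))
    (hQ : ∀ q ∈ Q, q ⊆ t ∧ IsRegularQuad q) : Q.card ≤ 14 := by
  have h := sum_pairs t Q (fun q hq => ⟨(hQ q hq).1, by
    obtain ⟨x, y, z, w, _, h4, _⟩ := (hQ q hq).2; exact h4⟩)
  have h2 : ∑ p ∈ t.powersetCard 2, (Q.filter (fun q => p ⊆ q)).card
      ≤ ∑ _p ∈ t.powersetCard 2, 4 := by
    apply sum_le_sum
    intro p hp
    rw [mem_powersetCard] at hp
    obtain ⟨a, b, hab, rfl⟩ := card_eq_two.1 hp.2
    exact pair_le_four hc Q hQ (hp.1 (mem_insert_self _ _))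
      (hp.1 (mem_insert_of_mem (mem_singleton_self _))) hab
  rw [h, sum_const, smul_eq_mul, card_powersetCard, hc] at h2
  have : Nat.choose 7 2 = 21 := by decide
  omega

end Pool.Agent.Run7.h789
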