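import Mathlib
import Pool.Prelude.Def_F_c55c3909

set_option autoImplicit false

/-!
The elements of a rational Diophantine tuple modulo 3 and modulo powers of 2 (helper789).
-/

namespace Pool.Agent.Run7.h789

/-- Clearing denominators in `x y + 1 = r²`. -/
theorem int_form {x y : ℚ} (h : IsSquare (x * y + 1)) :
    ∃ k : ℤ, (x.num * x.den) * (y.num * y.den) + ((x.den : ℤ) * y.den) ^ 2 = k * k := by
  have hx : (x.den : ℚ) ≠ 0 := by exact_mod_cast x.den_nz
  have hy : (y.den : ℚ) ≠ 0 := by exact_mod_cast y.den_nz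
  have h2 : IsSquare (((x.num * x.den) * (y.num * y.den) + ((x.den : ℤ) * y.den) ^ 2 : ℤ) : ℚ) := by
    obtain ⟨r, hr⟩ := h
    refine ⟨r * x.den * y.den, ?_⟩
    have e1 : x * x.den = x.num := Rat.mul_den_eq_num x
    have e2 : y * y.den = y.num := Rat.mul_den_eq_num y
    push_cast
    rw [← e1, ← e2]
    linear_combination ((x.den : ℚ) * y.den) ^ 2 * hr
  rw [Rat.isSquare_intCast_iff] at h2
  exact h2

/-- Three integers whose pairwise products are `2` modulo 3 do not exist. -/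
theorem no_three_mod_three {a b c : ℤ} (h1 : a * b % 3 = 2) (h2 : a * c % 3 = 2)
    (h3 : b * c % 3 = 2) : False := by
  have ha : a % 3 = 0 ∨ a % 3 = 1 ∨ a % 3 = 2 := by omega
  have hb : b % 3 = 0 ∨ b % 3 = 1 ∨ b % 3 = 2 := by omega
  have hc : c % 3 = 0 ∨ c % 3 = 1 ∨ c % 3 = 2 := by omega
  rw [Int.mul_emod] at h1 h2 h3
  rcases ha with ha | ha | ha <;> rcases hb with hb | hb | hb <;> rcases hc with hc | hc | hc <;>
    rw [ha, hb] at h1 <;> rw [ha, hc] at h2 <;> rw [hb, hc] at h3 <;> omega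

theorem pair_mod_three {x y : ℚ} (h : IsSquare (x * y + 1)) (hx : ¬ (3 : ℤ) ∣ x.num * x.den)
    (hy : ¬ (3 : ℤ) ∣ y.num * y.den) : (x.num * x.den) * (y.num * y.den) % 3 = 2 := by
  obtain ⟨k, hk⟩ := int_form h
  have hxd : ¬ (3 : ℤ) ∣ x.den := fun h => hx (Dvd.dvd.mul_left h _)
  have hyd : ¬ (3 : ℤ) ∣ y.den := fun h => hy (Dvd.dvd.mul_left h _)
  generalize hz : x.num * (x.den : ℤ) = z at *
  generalize hw : y.num * (y.den : ℤ) = w at *
  generalize (x.den : ℤ) = d at *
  generalize (y.den : ℤ) = e at *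
  have h3 : (z * w + (d * e) ^ 2) % 3 = k * k % 3 := by rw [hk]
  have hz' : z % 3 = 1 ∨ z % 3 = 2 := by omega
  have hw' : w % 3 = 1 ∨ w % 3 = 2 := by omega
  have hd' : d % 3 = 1 ∨ d % 3 = 2 := by omega
  have he' : e % 3 = 1 ∨ e % 3 = 2 := by omega
  have hk' : k % 3 = 0 ∨ k % 3 = 1 ∨ k % 3 = 2 := by omega
  have hde : (d * e) ^ 2 % 3 = 1 := by
    rcases hd' with h1 | h1 <;> rcases he' with h2 | h2 <;>
      simp [pow_two, Int.mul_emod, h1, h2]
  have hkk : k * k % 3 = 0 ∨ k * k % 3 = 1 := by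
    rcases hk' with h1 | h1 | h1 <;> simp [Int.mul_emod, h1]
  have hzw : z * w % 3 = 1 ∨ z * w % 3 = 2 := by
    rcases hz' with h1 | h1 <;> rcases hw' with h2 | h2 <;> simp [Int.mul_emod, h1, h2]
  rw [Int.add_emod, hde] at h3
  omega

/-- odd squares modulo 8 -/
theorem odd_sq_mod_eight {a : ℤ} (h : a % 2 = 1) : a * a % 8 = 1 := by
  have h8 : a % 8 = 1 ∨ a % 8 = 3 ∨ a % 8 = 5 ∨ a % 8 = 7 := by omega
  rcases h8 with h | h | h | h <;> simp [Int.mul_emod, h]

theorem sq_mod_four {a : ℤ} (h : a % 2 = 0) : a * a % 4 = 0 := by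
  have h8 : a % 4 = 0 ∨ a % 4 = 2 := by omega
  rcases h8 with h | h <;> simp [Int.mul_emod, h]

/-- the two-adic type of a rational with `4 ∤ num * den` -/
theorem two_types (x : ℚ) (hx : ¬ (4 : ℤ) ∣ x.num * x.den) :
    (x.num % 2 = 1 ∧ (x.den : ℤ) % 2 = 1) ∨ (x.num % 4 = 2 ∧ (x.den : ℤ) % 2 = 1) ∨
      (x.num % 2 = 1 ∧ (x.den : ℤ) % 4 = 2) := by
  have hcop : ¬ ((2 : ℤ) ∣ x.num ∧ (2 : ℤ) ∣ x.den) := by
    rintro ⟨h1, h2⟩
    have := x.reduced
    have h3 : (2 : ℕ) ∣ Nat.gcd x.num.natAbs x.den :=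
      Nat.dvd_gcd (by omega) (by exact_mod_cast h2)
    rw [this] at h3; omega
  generalize (x.den : ℤ) = d at *
  generalize x.num = n at *
  by_cases h1 : n % 2 = 1
  · by_cases h2 : d % 2 = 1
    · exact Or.inl ⟨h1, h2⟩
    · refine Or.inr (Or.inr ⟨h1, ?_⟩)
      by_contra h3
      have h4 : (4 : ℤ) ∣ d := by omega
      exact hx (Dvd.dvd.mul_left h4 _)
  · have h2 : d % 2 = 1 := by
      by_contra h2; exact hcop ⟨by omega, by omega⟩
    refine Or.inr (Or.inl ⟨?_, h2⟩)
    by_contra h3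
    have h4 : (4 : ℤ) ∣ n := by omega
    exact hx (Dvd.dvd.mul_right h4 _)

/-- two odd elements -/
theorem pair_odd {x y : ℚ} (h : IsSquare (x * y + 1))
    (hx : x.num % 2 = 1 ∧ (x.den : ℤ) % 2 = 1) (hy : y.num % 2 = 1 ∧ (y.den : ℤ) % 2 = 1) :
    (x.num * x.den) * (y.num * y.den) % 4 = 3 := by
  obtain ⟨k, hk⟩ := int_form h
  generalize (x.den : ℤ) = d at *
  generalize (y.den : ℤ) = e at *
  generalize x.num = n at *
  generalize y.num = m at *
  have h1 : (d * e) % 2 = 1 := by rw [Int.mul_emod, hx.2, hy.2]; rfl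
  have h2 : (n * d * (m * e)) % 2 = 1 := by
    rw [Int.mul_emod, Int.mul_emod n, Int.mul_emod m, hx.1, hx.2, hy.1, hy.2]; rfl
  have h3 := odd_sq_mod_eight h1
  have h4 : (n * d * (m * e) + (d * e) * (d * e)) = k * k := by linear_combination hk
  have hkk : k % 2 = 0 := by
    by_contra hc
    have := odd_sq_mod_eight (a := k) (by omega)
    omega
  have := sq_mod_four hkk
  omega

/-- an odd element and one with two-adic valuation 1 or -1 -/
theorem no_odd_two {x y : ℚ} (h : IsSquare (x * y + 1))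
    (hx : x.num % 2 = 1 ∧ (x.den : ℤ) % 2 = 1)
    (hy : (y.num % 4 = 2 ∧ (y.den : ℤ) % 2 = 1) ∨ (y.num % 2 = 1 ∧ (y.den : ℤ) % 4 = 2)) :
    False := by
  obtain ⟨k, hk⟩ := int_form h
  generalize (x.den : ℤ) = d at *
  generalize (y.den : ℤ) = e at *
  generalize x.num = n at *
  generalize y.num = m at *
  have h4 : (n * d * (m * e) + (d * e) * (d * e)) = k * k := by linear_combination hk
  have hnd : (n * d) % 2 = 1 := by rw [Int.mul_emod, hx.1, hx.2]; rfl
  have hme : (m * e) % 4 = 2 := by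
    rcases hy with hy | hy
    · have : e % 4 = 1 ∨ e % 4 = 3 := by omega
      rcases this with h | h <;> rw [Int.mul_emod, hy.1, h] <;> rfl
    · have : m % 4 = 1 ∨ m % 4 = 3 := by omega
      rcases this with h | h <;> rw [Int.mul_emod, hy.2, h] <;> rfl
  have h5 : (n * d * (m * e)) % 4 = 2 := by
    have : (n * d) % 4 = 1 ∨ (n * d) % 4 = 3 := by omega
    rcases this with h | h <;> rw [Int.mul_emod, hme, h] <;> rfl
  have hkk : k * k % 4 = 0 ∨ k * k % 4 = 1 := by
    rcases (show k % 2 = 0 ∨ k % 2 = 1 by omega) with h | h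
    · exact Or.inl (sq_mod_four h)
    · have := odd_sq_mod_eight h; right; omega
  rcases hy with hy | hy
  · have h6 : (d * e) % 2 = 1 := by rw [Int.mul_emod, hx.2, hy.2]; rfl
    have := odd_sq_mod_eight h6
    omega
  · have h6 : (d * e) % 2 = 0 := by
      rw [Int.mul_emod, hx.2, show e % 2 = 0 by omega]; rfl
    have := sq_mod_four h6
    omega

/-- two elements of two-adic valuation 1 -/
theorem no_two_two {x y : ℚ} (h : IsSquare (x * y + 1))
    (hx : x.num % 4 = 2 ∧ (x.den : ℤ) % 2 = 1) (hy : y.num % 4 = 2 ∧ (y.den : ℤ) % 2 = 1) :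
    False := by
  obtain ⟨k, hk⟩ := int_form h
  generalize (x.den : ℤ) = d at *
  generalize (y.den : ℤ) = e at *
  obtain ⟨n, hn⟩ : ∃ n, x.num = 2 * n := ⟨x.num / 2, by omega⟩
  obtain ⟨m, hm⟩ : ∃ m, y.num = 2 * m := ⟨y.num / 2, by omega⟩
  have hn1 : n % 2 = 1 := by have := hx.1; omega
  have hm1 : m % 2 = 1 := by have := hy.1; omega
  rw [hn, hm] at hk
  have h4 : 4 * ((n * d) * (m * e)) + (d * e) * (d * e) = k * k := by linear_combination hk
  have h1 : ((n * d) * (m * e)) % 2 = 1 := by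
    rw [Int.mul_emod, Int.mul_emod n, Int.mul_emod m, hn1, hx.2, hm1, hy.2]; rfl
  have h6 : (d * e) % 2 = 1 := by rw [Int.mul_emod, hx.2, hy.2]; rfl
  have h7 := odd_sq_mod_eight h6
  have hk8 : k * k % 8 = 5 := by omega
  rcases (show k % 2 = 0 ∨ k % 2 = 1 by omega) with h | h
  · have := sq_mod_four h; omega
  · have := odd_sq_mod_eight h; omega

/-- two elements of two-adic valuation -1 -/
theorem pair_half {x y : ℚ} (h : IsSquare (x * y + 1))
    (hx : x.num % 2 = 1 ∧ (x.den : ℤ) % 4 = 2) (hy : y.num % 2 = 1 ∧ (y.den : ℤ) % 4 = 2) :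
    (x.num * (x.den / 2)) * (y.num * (y.den / 2)) % 8 = 5 := by
  obtain ⟨k, hk⟩ := int_form h
  generalize (x.den : ℤ) = d0 at *
  generalize (y.den : ℤ) = e0 at *
  obtain ⟨d, hd⟩ : ∃ d, d0 = 2 * d := ⟨d0 / 2, by omega⟩
  obtain ⟨e, he⟩ : ∃ e, e0 = 2 * e := ⟨e0 / 2, by omega⟩
  subst hd; subst he
  rw [Int.mul_ediv_cancel_left d (by norm_num), Int.mul_ediv_cancel_left e (by norm_num)]
  have hd1 : d % 2 = 1 := by omega
  have he1 : e % 2 = 1 := by omega
  generalize x.num = n at *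
  generalize y.num = m at *
  have h4 : 4 * ((n * d) * (m * e)) + 16 * ((d * e) * (d * e)) = k * k := by
    linear_combination hk
  have hk2 : k % 2 = 0 := by
    by_contra hc
    have := odd_sq_mod_eight (a := k) (by omega)
    omega
  obtain ⟨l, rfl⟩ : ∃ l, k = 2 * l := ⟨k / 2, by omega⟩
  have h5 : (n * d) * (m * e) + 4 * ((d * e) * (d * e)) = l * l := by linarith
  have h1 : ((n * d) * (m * e)) % 2 = 1 := by
    rw [Int.mul_emod, Int.mul_emod n, Int.mul_emod m, hx.1, hd1, hy.1, he1]; rfl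
  have h6 : (d * e) % 2 = 1 := by rw [Int.mul_emod, hd1, he1]; rfl
  have h7 := odd_sq_mod_eight h6
  have hl : l % 2 = 1 := by
    by_contra hc
    have := sq_mod_four (a := l) (by omega)
    omega
  have := odd_sq_mod_eight hl
  omega

theorem no_three_half {x y z : ℚ} (hxy : IsSquare (x * y + 1)) (hxz : IsSquare (x * z + 1))
    (hyz : IsSquare (y * z + 1)) (hx : x.num % 2 = 1 ∧ (x.den : ℤ) % 4 = 2)
    (hy : y.num % 2 = 1 ∧ (y.den : ℤ) % 4 = 2) (hz : z.num % 2 = 1 ∧ (z.den : ℤ) % 4 = 2) :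
    False := by
  have h1 := pair_half hxy hx hy
  have h2 := pair_half hxz hx hz
  have h3 := pair_half hyz hy hz
  have p : ∀ q : ℚ, (q.num % 2 = 1 ∧ (q.den : ℤ) % 4 = 2) → (q.num * ((q.den : ℤ) / 2)) % 2 = 1 := by
    intro q hq
    rw [Int.mul_emod, hq.1, show ((q.den : ℤ) / 2) % 2 = 1 by omega]; rfl
  have px := p x hx
  have py := p y hy
  have pz := p z hz
  generalize x.num * ((x.den : ℤ) / 2) = a at *
  generalize y.num * ((y.den : ℤ) / 2) = b at *
  generalize z.num * ((z.den : ℤ) / 2) = c at *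
  have h4 := odd_sq_mod_eight (a := a * b * c) (by
    rw [Int.mul_emod, Int.mul_emod a, px, py, pz]; rfl)
  have h5 : (a * b * c) * (a * b * c) = (a * b) * (a * c) * (b * c) := by ring
  rw [h5, Int.mul_emod, Int.mul_emod (a * b), h1, h2, h3] at h4
  norm_num at h4

theorem no_three_odd {x y z : ℚ} (hxy : IsSquare (x * y + 1)) (hxz : IsSquare (x * z + 1))
    (hyz : IsSquare (y * z + 1)) (hx : x.num % 2 = 1 ∧ (x.den : ℤ) % 2 = 1)
    (hy : y.num % 2 = 1 ∧ (y.den : ℤ) % 2 = 1) (hz : z.num % 2 = 1 ∧ (z.den : ℤ) % 2 = 1) :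
    False := by
  have h1 := pair_odd hxy hx hy
  have h2 := pair_odd hxz hx hz
  have h3 := pair_odd hyz hy hz
  have p : ∀ q : ℚ, (q.num % 2 = 1 ∧ (q.den : ℤ) % 2 = 1) → (q.num * (q.den : ℤ)) % 2 = 1 := by
    intro q hq
    rw [Int.mul_emod, hq.1, hq.2]; rfl
  have px := p x hx
  have py := p y hy
  have pz := p z hz
  generalize x.num * (x.den : ℤ) = a at *
  generalize y.num * (y.den : ℤ) = b at *
  generalize z.num * (z.den : ℤ) = c at *
  have h4 := odd_sq_mod_eight (a := a * b * c) (by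
    rw [Int.mul_emod, Int.mul_emod a, px, py, pz]; rfl)
  have h5 : (a * b * c) * (a * b * c) = (a * b) * (a * c) * (b * c) := by ring
  have h6 : (a * b) * (a * c) * (b * c) % 4 = 1 := by rw [← h5]; omega
  rw [Int.mul_emod, Int.mul_emod (a * b), h1, h2, h3] at h6
  norm_num at h6

/-- Four elements of a rational Diophantine tuple are not all free of `4` in `num * den`. -/
theorem no_four_mod_four {x y z w : ℚ} (hxy : IsSquare (x * y + 1)) (hxz : IsSquare (x * z + 1))
    (hxw : IsSquare (x * w + 1)) (hyz : IsSquare (y * z + 1)) (hyw : IsSquare (y * w + 1))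
    (hzw : IsSquare (z * w + 1)) (hx : ¬ (4 : ℤ) ∣ x.num * x.den)
    (hy : ¬ (4 : ℤ) ∣ y.num * y.den) (hz : ¬ (4 : ℤ) ∣ z.num * z.den)
    (hw : ¬ (4 : ℤ) ∣ w.num * w.den) : False := by
  have c : ∀ {a b : ℚ}, IsSquare (a * b + 1) → IsSquare (b * a + 1) := by
    intro a b h; rwa [mul_comm]
  rcases two_types x hx with hx | hx | hx
  · rcases two_types y hy with hy | hy | hy
    · rcases two_types z hz with hz | hz | hz
      · exact no_three_odd hxy hxz hyz hx hy hz
      · exact no_odd_two hxz hx (Or.inl hz)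
      · exact no_odd_two hxz hx (Or.inr hz)
    · exact no_odd_two hxy hx (Or.inl hy)
    · exact no_odd_two hxy hx (Or.inr hy)
  · rcases two_types y hy with hy | hy | hy
    · exact no_odd_two (c hxy) hy (Or.inl hx)
    · exact no_two_two hxy hx hy
    · rcases two_types z hz with hz | hz | hz
      · exact no_odd_two (c hxz) hz (Or.inl hx)
      · exact no_two_two hxz hx hz
      · rcases two_types w hw with hw | hw | hw
        · exact no_odd_two (c hxw) hw (Or.inl hx)
        · exact no_two_two hxw hx hw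
        · exact no_three_half hyz hyw hzw hy hz hw
  · rcases two_types y hy with hy | hy | hy
    · exact no_odd_two (c hxy) hy (Or.inr hx)
    · rcases two_types z hz with hz | hz | hz
      · exact no_odd_two (c hxz) hz (Or.inr hx)
      · exact no_two_two hyz hy hz
      · rcases two_types w hw with hw | hw | hw
        · exact no_odd_two (c hxw) hw (Or.inr hx)
        · exact no_two_two hyw hy hw
        · exact no_three_half hxz hxw hzw hx hz hw
    · rcases two_types z hz with hz | hz | hz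
      · exact no_odd_two (c hxz) hz (Or.inr hx)
      · rcases two_types w hw with hw | hw | hw
        · exact no_odd_two (c hxw) hw (Or.inr hx)
        · exact no_two_two hzw hz hw
        · exact no_three_half hxy hxw hyw hx hy hw
      · exact no_three_half hxy hxz hyz hx hy hz

end Pool.Agent.Run7.h789
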