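import Pool.Agent.Run7.h789.Reg
import Pool.Agent.Run7.h789.Twelve

set_option autoImplicit false

/-!
Elements divisible by 3, or by 4, do not enter regular quadruples or quintuples (helper789).
-/

namespace Pool.Agent.Run7.h789

/-- A set `q` of rationals is a regular quintuple when it consists of five distinct rationals
`a, b, c, d, e` with
`(a b c d e + 2 a b c + a + b + c - d - e) ^ 2 = 4 (a b + 1) (a c + 1) (b c + 1) (d e + 1)`. -/
def IsRegularQuint (q : Finset ℚ) : Prop :=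
  ∃ a b c d e : ℚ, q = {a, b, c, d, e} ∧ q.card = 5 ∧
    (a * b * c * d * e + 2 * (a * b * c) + a + b + c - d - e) ^ 2 =
      4 * (a * b + 1) * (a * c + 1) * (b * c + 1) * (d * e + 1)

/-- The rationals which are integral at `p`. -/
def loc (p : ℕ) [hp : Fact p.Prime] : Subring ℚ where
  carrier := {x | padicNorm p x ≤ 1}
  mul_mem' := by
    intro a b ha hb
    simp only [Set.mem_ofPred_eq, padicNorm.mul] at *
    exact mul_le_one₀ ha (padicNorm.nonneg _) hb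
  one_mem' := by simp
  add_mem' := by
    intro a b ha hb
    simp only [Set.mem_ofPred_eq] at *
    exact padicNorm.nonarchimedean.trans (max_le ha hb)
  zero_mem' := by simp
  neg_mem' := by
    intro a ha
    simp only [Set.mem_ofPred_eq, padicNorm.neg] at *
    exact ha

theorem mem_loc_of_den {p : ℕ} [hp : Fact p.Prime] {x : ℚ} (h : ¬ p ∣ x.den) : x ∈ loc p := by
  show padicNorm p x ≤ 1
  have h1 : padicNorm p (x.den : ℚ) = 1 := (padicNorm.nat_eq_one_iff x.den).2 h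
  have h2 : x * x.den = x.num := Rat.mul_den_eq_num x
  have h3 : padicNorm p x * padicNorm p (x.den : ℚ) = padicNorm p (x.num : ℚ) := by
    rw [← padicNorm.mul, h2]
  rw [h1, mul_one] at h3
  rw [h3]
  exact padicNorm.of_int x.num

/-- the multiples -/
theorem mul_of_num {p : ℕ} [hp : Fact p.Prime] {k : ℕ} {x : ℚ} (h : ¬ p ∣ x.den)
    (hn : (k : ℤ) ∣ x.num) : ∃ y : loc p, x = k * y := by
  obtain ⟨m, hm⟩ := hn
  have hd : (x.den : ℚ) ≠ 0 := by exact_mod_cast x.den_nz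
  have hmem : ((m : ℚ) / x.den) ∈ loc p := by
    show padicNorm p ((m : ℚ) / x.den) ≤ 1
    rw [padicNorm.div, (padicNorm.nat_eq_one_iff x.den).2 h, div_one]
    exact padicNorm.of_int m
  refine ⟨⟨_, hmem⟩, ?_⟩
  have h2 : x * x.den = x.num := Rat.mul_den_eq_num x
  rw [hm] at h2
  push_cast at h2
  field_simp
  linarith

theorem one_ne_mul {p : ℕ} [hp : Fact p.Prime] (y : loc p) : (1 : ℚ) ≠ p * y := by
  intro h
  have h1 : padicNorm p (1 : ℚ) = padicNorm p (p : ℚ) * padicNorm p (y : ℚ) := by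
    rw [← padicNorm.mul, ← h]
  rw [padicNorm.one, padicNorm.padicNorm_p_of_prime] at h1
  have h2 : padicNorm p (y : ℚ) ≤ 1 := y.2
  have h3 : (1 : ℚ) < p := by exact_mod_cast hp.out.one_lt
  have h4 : (p : ℚ)⁻¹ < 1 := inv_lt_one_of_one_lt₀ h3
  have h5 : (0 : ℚ) < (p : ℚ)⁻¹ := by positivity
  nlinarith [padicNorm.nonneg (p := p) (y : ℚ)]

/-- four multiples of 3 are not a regular quadruple -/
theorem not_rel_three (a b c d : loc 3) : ¬ Rel (3 * a) (3 * b) (3 * c) (3 * d) := by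
  intro h
  unfold Rel at h
  refine one_ne_mul (p := 3)
    (((3 : ℕ) : loc 3) * (a ^ 2 + b ^ 2 + c ^ 2 + d ^ 2) - ((6 : ℕ) : loc 3) * (a * b + a * c + a * d + b * c + b * d + c * d)
      - ((108 : ℕ) : loc 3) * (a * b * c * d) - ((1 : ℕ) : loc 3)) ?_
  simp only [Subring.coe_add, Subring.coe_mul, AddSubgroupClass.coe_sub, Subring.coe_pow,
    Subring.coe_natCast]
  push_cast
  linear_combination - h

theorem not_rel_two (a b c d : loc 2) : ¬ Rel (4 * a) (4 * b) (4 * c) (4 * d) := by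
  intro h
  unfold Rel at h
  refine one_ne_mul (p := 2)
    (((2 : ℕ) : loc 2) * (a ^ 2 + b ^ 2 + c ^ 2 + d ^ 2) - ((4 : ℕ) : loc 2) * (a * b + a * c + a * d + b * c + b * d + c * d)
      - ((128 : ℕ) : loc 2) * (a * b * c * d)) ?_
  simp only [Subring.coe_add, Subring.coe_mul, AddSubgroupClass.coe_sub, Subring.coe_pow,
    Subring.coe_natCast]
  push_cast
  linear_combination (- 1 / 4 : ℚ) * h

theorem not_quint_three (a b c d e : loc 3) :
    ¬ ((3 * a) * (3 * b) * (3 * c) * (3 * d) * (3 * e) + 2 * ((3 * a) * (3 * b) * (3 * c))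
        + (3 * a) + (3 * b) + (3 * c) - (3 * d) - (3 * e) : ℚ) ^ 2 =
      4 * ((3 * a) * (3 * b) + 1) * ((3 * a) * (3 * c) + 1) * ((3 * b) * (3 * c) + 1)
        * ((3 * d) * (3 * e) + 1) := by
  intro h
  refine one_ne_mul (p := 3)
    (((3 : ℕ) : loc 3) * (((81 : ℕ) : loc 3) * (a * b * c * d * e) + ((18 : ℕ) : loc 3) * (a * b * c) + a + b + c - d - e) ^ 2
      - ((12 : ℕ) : loc 3) * ((((1 : ℕ) : loc 3) + ((9 : ℕ) : loc 3) * (a * c)) * (((1 : ℕ) : loc 3) + ((9 : ℕ) : loc 3) * (b * c)) * (((1 : ℕ) : loc 3) + ((9 : ℕ) : loc 3) * (d * e)) * (a * b)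
        + (((1 : ℕ) : loc 3) + ((9 : ℕ) : loc 3) * (b * c)) * (((1 : ℕ) : loc 3) + ((9 : ℕ) : loc 3) * (d * e)) * (a * c) + (((1 : ℕ) : loc 3) + ((9 : ℕ) : loc 3) * (d * e)) * (b * c) + d * e)
      - ((1 : ℕ) : loc 3)) ?_
  simp only [Subring.coe_add, Subring.coe_mul, AddSubgroupClass.coe_sub, Subring.coe_pow,
    Subring.coe_natCast]
  push_cast
  linear_combination - h

theorem not_quint_two (a b c d e : loc 2) :
    ¬ ((4 * a) * (4 * b) * (4 * c) * (4 * d) * (4 * e) + 2 * ((4 * a) * (4 * b) * (4 * c))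
        + (4 * a) + (4 * b) + (4 * c) - (4 * d) - (4 * e) : ℚ) ^ 2 =
      4 * ((4 * a) * (4 * b) + 1) * ((4 * a) * (4 * c) + 1) * ((4 * b) * (4 * c) + 1)
        * ((4 * d) * (4 * e) + 1) := by
  intro h
  refine one_ne_mul (p := 2)
    (((2 : ℕ) : loc 2) * (((256 : ℕ) : loc 2) * (a * b * c * d * e) + ((32 : ℕ) : loc 2) * (a * b * c) + a + b + c - d - e) ^ 2
      - ((8 : ℕ) : loc 2) * ((((1 : ℕ) : loc 2) + ((16 : ℕ) : loc 2) * (a * c)) * (((1 : ℕ) : loc 2) + ((16 : ℕ) : loc 2) * (b * c)) * (((1 : ℕ) : loc 2) + ((16 : ℕ) : loc 2) * (d * e)) * (a * b)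
        + (((1 : ℕ) : loc 2) + ((16 : ℕ) : loc 2) * (b * c)) * (((1 : ℕ) : loc 2) + ((16 : ℕ) : loc 2) * (d * e)) * (a * c) + (((1 : ℕ) : loc 2) + ((16 : ℕ) : loc 2) * (d * e)) * (b * c)
        + d * e)) ?_
  simp only [Subring.coe_add, Subring.coe_mul, AddSubgroupClass.coe_sub, Subring.coe_pow,
    Subring.coe_natCast]
  push_cast
  linear_combination (- 1 / 4 : ℚ) * h

/-- A regular quadruple contains an element which is not a multiple of 3 (in the local ring). -/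
theorem quad_not_three {q : Finset ℚ} (hq : IsRegularQuad q)
    (h : ∀ x ∈ q, ∃ y : loc 3, x = 3 * y) : False := by
  obtain ⟨a, b, c, d, rfl, _, hr⟩ := hq
  obtain ⟨a', ha⟩ := h a (by simp)
  obtain ⟨b', hb⟩ := h b (by simp)
  obtain ⟨c', hc⟩ := h c (by simp)
  obtain ⟨d', hd⟩ := h d (by simp)
  rw [rel_iff, ha, hb, hc, hd] at hr
  exact not_rel_three _ _ _ _ hr

theorem quad_not_two {q : Finset ℚ} (hq : IsRegularQuad q)
    (h : ∀ x ∈ q, ∃ y : loc 2, x = 4 * y) : False := by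
  obtain ⟨a, b, c, d, rfl, _, hr⟩ := hq
  obtain ⟨a', ha⟩ := h a (by simp)
  obtain ⟨b', hb⟩ := h b (by simp)
  obtain ⟨c', hc⟩ := h c (by simp)
  obtain ⟨d', hd⟩ := h d (by simp)
  rw [rel_iff, ha, hb, hc, hd] at hr
  exact not_rel_two _ _ _ _ hr

theorem quint_not_three {q : Finset ℚ} (hq : IsRegularQuint q)
    (h : ∀ x ∈ q, ∃ y : loc 3, x = 3 * y) : False := by
  obtain ⟨a, b, c, d, e, rfl, _, hr⟩ := hq
  obtain ⟨a', ha⟩ := h a (by simp)
  obtain ⟨b', hb⟩ := h b (by simp)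
  obtain ⟨c', hc⟩ := h c (by simp)
  obtain ⟨d', hd⟩ := h d (by simp)
  obtain ⟨e', he⟩ := h e (by simp)
  rw [ha, hb, hc, hd, he] at hr
  exact not_quint_three _ _ _ _ _ hr

theorem quint_not_two {q : Finset ℚ} (hq : IsRegularQuint q)
    (h : ∀ x ∈ q, ∃ y : loc 2, x = 4 * y) : False := by
  obtain ⟨a, b, c, d, e, rfl, _, hr⟩ := hq
  obtain ⟨a', ha⟩ := h a (by simp)
  obtain ⟨b', hb⟩ := h b (by simp)
  obtain ⟨c', hc⟩ := h c (by simp)
  obtain ⟨d', hd⟩ := h d (by simp)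
  obtain ⟨e', he⟩ := h e (by simp)
  rw [ha, hb, hc, hd, he] at hr
  exact not_quint_two _ _ _ _ _ hr

end Pool.Agent.Run7.h789
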