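import Mathlib
import Pool.Prelude.Def_F_c55c3909

set_option autoImplicit false

/-!
Regular quadruples in rational Diophantine tuples (helper789).
-/

namespace Pool.Agent.Run7.h789

/-- A set `q` of rationals is a regular quadruple when it consists of four distinct
rationals `a, b, c, d` with `(a + b - c - d) ^ 2 = 4 (a b + 1) (c d + 1)`.  (The relation
is symmetric in the four elements.) -/
def IsRegularQuad (q : Finset ℚ) : Prop :=
  ∃ a b c d : ℚ, q = {a, b, c, d} ∧ q.card = 4 ∧
    (a + b - c - d) ^ 2 = 4 * (a * b + 1) * (c * d + 1)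

/-- The relation on four rationals, in symmetric form. -/
def Rel (a b c d : ℚ) : Prop :=
  a ^ 2 + b ^ 2 + c ^ 2 + d ^ 2 - 2 * (a * b + a * c + a * d + b * c + b * d + c * d)
    - 4 * (a * b * c * d) - 4 = 0

theorem rel_iff (a b c d : ℚ) :
    (a + b - c - d) ^ 2 = 4 * (a * b + 1) * (c * d + 1) ↔ Rel a b c d := by
  unfold Rel
  constructor <;> intro h <;> linear_combination h

theorem Rel.swap12 {a b c d : ℚ} (h : Rel a b c d) : Rel b a c d := by
  unfold Rel at *; linear_combination h

theorem Rel.swap23 {a b c d : ℚ} (h : Rel a b c d) : Rel a c b d := by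
  unfold Rel at *; linear_combination h

theorem Rel.swap34 {a b c d : ℚ} (h : Rel a b c d) : Rel a b d c := by
  unfold Rel at *; linear_combination h

/-- Two different completions of a triple have a prescribed sum. -/
theorem Rel.sum_eq {a b c d e : ℚ} (h1 : Rel a b c d) (h2 : Rel a b c e) (hne : d ≠ e) :
    d + e = (4 * (a * b) + 2) * c + 2 * (a + b) := by
  unfold Rel at *
  have h : (d - e) * (d + e - ((4 * (a * b) + 2) * c + 2 * (a + b))) = 0 := by
    linear_combination h1 - h2
  rcases mul_eq_zero.1 h with h | h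
  · exact absurd (sub_eq_zero.1 h) hne
  · linarith

/-- If a finite set of rationals is a regular quadruple containing `a, b`, then the other two
elements complete `a, b` to the relation. -/
theorem rel_of_regular {q : Finset ℚ} (hq : IsRegularQuad q) {a b c d : ℚ}
    (hab : a ≠ b) (hac : a ≠ c) (had : a ≠ d) (hbc : b ≠ c) (hbd : b ≠ d) (hcd : c ≠ d)
    (hqe : q = {a, b, c, d}) : Rel a b c d := by
  obtain ⟨x, y, z, w, hq1, hq2, hr⟩ := hq
  rw [rel_iff] at hr
  have hset : ({x, y, z, w} : Finset ℚ) = {a, b, c, d} := by rw [← hq1, hqe]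
  have hcard : ({x, y, z, w} : Finset ℚ).card = 4 := by rw [← hq1]; exact hq2
  have hx : x ∈ ({a, b, c, d} : Finset ℚ) := by rw [← hset]; simp
  have hy : y ∈ ({a, b, c, d} : Finset ℚ) := by rw [← hset]; simp
  have hz : z ∈ ({a, b, c, d} : Finset ℚ) := by rw [← hset]; simp
  have hw : w ∈ ({a, b, c, d} : Finset ℚ) := by rw [← hset]; simp
  have hxy : x ≠ y := by
    rintro rfl
    have : ({x, x, z, w} : Finset ℚ).card ≤ 3 := by
      have e : ({x, x, z, w} : Finset ℚ) = {x, z, w} := by simp
      rw [e]; exact Finset.card_le_three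
    omega
  have hxz : x ≠ z := by
    rintro rfl
    have : ({x, y, x, w} : Finset ℚ).card ≤ 3 := by
      have e : ({x, y, x, w} : Finset ℚ) = {x, y, w} := by ext u; simp; tauto
      rw [e]; exact Finset.card_le_three
    omega
  have hxw : x ≠ w := by
    rintro rfl
    have : ({x, y, z, x} : Finset ℚ).card ≤ 3 := by
      have e : ({x, y, z, x} : Finset ℚ) = {x, y, z} := by ext u; simp; tauto
      rw [e]; exact Finset.card_le_three
    omega
  have hyz : y ≠ z := by
    rintro rfl
    have : ({x, y, y, w} : Finset ℚ).card ≤ 3 := by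
      have e : ({x, y, y, w} : Finset ℚ) = {x, y, w} := by simp
      rw [e]; exact Finset.card_le_three
    omega
  have hyw : y ≠ w := by
    rintro rfl
    have : ({x, y, z, y} : Finset ℚ).card ≤ 3 := by
      have e : ({x, y, z, y} : Finset ℚ) = {x, y, z} := by ext u; simp; tauto
      rw [e]; exact Finset.card_le_three
    omega
  have hzw : z ≠ w := by
    rintro rfl
    have : ({x, y, z, z} : Finset ℚ).card ≤ 3 := by
      have e : ({x, y, z, z} : Finset ℚ) = {x, y, z} := by simp
      rw [e]; exact Finset.card_le_three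
    omega
  simp only [Finset.mem_insert, Finset.mem_singleton] at hx hy hz hw
  unfold Rel at *
  rcases hx with rfl | rfl | rfl | rfl <;> rcases hy with rfl | rfl | rfl | rfl <;>
    first
    | exact absurd rfl hxy
    | (rcases hz with rfl | rfl | rfl | rfl <;>
        first
        | exact absurd rfl hxz
        | exact absurd rfl hyz
        | (rcases hw with rfl | rfl | rfl | rfl <;>
            first
            | exact absurd rfl hxw
            | exact absurd rfl hyw
            | exact absurd rfl hzw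
            | linear_combination hr))

/-- Five numbers in a cycle, each neighbour sum being `l c + m` with `l² + l ≠ 1`: the first
two are equal. -/
theorem cycle_five {l m c1 c2 c3 c4 c5 : ℚ}
    (e1 : c5 + c2 = l * c1 + m) (e2 : c1 + c3 = l * c2 + m) (e3 : c2 + c4 = l * c3 + m)
    (e5 : c4 + c1 = l * c5 + m) : c1 = c2 := by
  have h : (1 - l - l ^ 2) * (c1 - c2) = 0 := by
    linear_combination e5 - e3 + l * e1 - l * e2
  rcases mul_eq_zero.1 h with h | h
  · exfalso
    have h5 : IsSquare (5 : ℚ) := ⟨2 * l + 1, by linear_combination 4 * h⟩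
    rw [show (5 : ℚ) = ((5 : ℕ) : ℚ) by norm_num, Rat.isSquare_natCast_iff] at h5
    obtain ⟨r, hr⟩ := h5
    have hr2 : r ≤ 2 := by by_contra hcon; push Not at hcon; nlinarith
    interval_cases r <;> omega
  · linarith

/-- There is no relation on five rationals in which every one of them has exactly two
neighbours, the two neighbours of `c` having the sum `l c + m`. -/
theorem no_two_regular {T : Finset ℚ} (hT : T.card = 5) (N : ℚ → Finset ℚ) {l m : ℚ}
    (hsub : ∀ c ∈ T, N c ⊆ T) (hirr : ∀ c ∈ T, c ∉ N c)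
    (hsymm : ∀ c ∈ T, ∀ d ∈ T, d ∈ N c → c ∈ N d)
    (hcard : ∀ c ∈ T, (N c).card = 2)
    (hsum : ∀ c ∈ T, ∀ d ∈ N c, ∀ e ∈ N c, d ≠ e → d + e = l * c + m) : False := by
  obtain ⟨c, hc⟩ : T.Nonempty := by rw [← Finset.card_pos]; omega
  obtain ⟨d1, d2, hd, hNc⟩ := Finset.card_eq_two.1 (hcard c hc)
  have hd1 : d1 ∈ T := hsub c hc (by rw [hNc]; simp)
  have hd2 : d2 ∈ T := hsub c hc (by rw [hNc]; simp)
  have hcd1 : c ≠ d1 := by rintro rfl; exact hirr c hc (by rw [hNc]; simp)
  have hcd2 : c ≠ d2 := by rintro rfl; exact hirr c hc (by rw [hNc]; simp)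
  -- the other two elements
  have hR : (T \ {c, d1, d2}).card = 2 := by
    rw [Finset.card_sdiff_of_subset]
    · rw [hT, Finset.card_eq_three.2 ⟨c, d1, d2, hcd1, hcd2, hd, rfl⟩]
    · intro x hx; simp only [Finset.mem_insert, Finset.mem_singleton] at hx
      rcases hx with rfl | rfl | rfl <;> assumption
  obtain ⟨e1, e2, he, hRe⟩ := Finset.card_eq_two.1 hR
  have hTel : ∀ x ∈ T, x = c ∨ x = d1 ∨ x = d2 ∨ x = e1 ∨ x = e2 := by
    intro x hx
    by_cases h : x ∈ T \ {c, d1, d2}
    · rw [hRe] at h; simp only [Finset.mem_insert, Finset.mem_singleton] at h; tauto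
    · simp only [Finset.mem_sdiff, Finset.mem_insert, Finset.mem_singleton, not_and,
        not_not] at h
      have := h hx; tauto
  have hmem : ∀ x, x = e1 ∨ x = e2 → x ∈ T ∧ x ≠ c ∧ x ≠ d1 ∧ x ≠ d2 := by
    intro x hx
    have : x ∈ T \ {c, d1, d2} := by
      rw [hRe]; simp only [Finset.mem_insert, Finset.mem_singleton]; exact hx
    simp only [Finset.mem_sdiff, Finset.mem_insert, Finset.mem_singleton, not_or] at this
    exact ⟨this.1, this.2.1, this.2.2.1, this.2.2.2⟩
  -- the statement for a labelling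
  have key : ∀ e1 e2 : ℚ, e1 ≠ e2 → (e1 ∈ T ∧ e1 ≠ c ∧ e1 ≠ d1 ∧ e1 ≠ d2) →
      (e2 ∈ T ∧ e2 ≠ c ∧ e2 ≠ d1 ∧ e2 ≠ d2) →
      (∀ x ∈ T, x = c ∨ x = d1 ∨ x = d2 ∨ x = e1 ∨ x = e2) → e1 ∈ N d1 → False := by
    intro e1 e2 he ⟨he1, he1c, he1d1, he1d2⟩ ⟨he2, he2c, he2d1, he2d2⟩ hTel hadj
    -- N d1 = {c, e1}
    have hcN1 : c ∈ N d1 := hsymm c hc d1 hd1 (by rw [hNc]; simp)
    have hcN2 : c ∈ N d2 := hsymm c hc d2 hd2 (by rw [hNc]; simp)
    have two : ∀ v ∈ T, ∀ x y z : ℚ, x ∈ N v → y ∈ N v → z ∈ N v → x ≠ y → z = x ∨ z = y := by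
      intro v hv x y z hx hy hz hxy
      by_contra hcon
      push Not at hcon
      have h3 : ({x, y, z} : Finset ℚ).card = 3 :=
        Finset.card_eq_three.2 ⟨x, y, z, hxy, hcon.1.symm, hcon.2.symm, rfl⟩
      have hle : ({x, y, z} : Finset ℚ).card ≤ (N v).card := by
        apply Finset.card_le_card
        intro u hu; simp only [Finset.mem_insert, Finset.mem_singleton] at hu
        rcases hu with rfl | rfl | rfl <;> assumption
      rw [hcard v hv, h3] at hle
      omega
    have another : ∀ v ∈ T, ∀ x : ℚ, ∃ y ∈ N v, y ≠ x := by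
      intro v hv x
      by_contra hcon
      push Not at hcon
      have : (N v).card ≤ 1 := Finset.card_le_one.2 (fun a ha b hb => by
        rw [hcon a ha, hcon b hb])
      rw [hcard v hv] at this; omega
    -- neighbours of e2 : e2 is not a neighbour of c, nor of d1
    have he2c' : c ∉ N e2 := by
      intro h
      have := hsymm e2 he2 c hc h
      rw [hNc] at this; simp only [Finset.mem_insert, Finset.mem_singleton] at this; tauto
    have he1c' : c ∉ N e1 := by
      intro h
      have := hsymm e1 he1 c hc h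
      rw [hNc] at this; simp only [Finset.mem_insert, Finset.mem_singleton] at this; tauto
    have he2d1' : d1 ∉ N e2 := by
      intro h
      have h1 := hsymm e2 he2 d1 hd1 h
      rcases two d1 hd1 c e1 e2 hcN1 hadj h1 he1c.symm with h | h
      · exact he2c h
      · exact he h.symm
    -- so the neighbours of e2 are d2 and e1
    have hNe2 : ∀ x ∈ N e2, x = d2 ∨ x = e1 := by
      intro x hx
      rcases hTel x (hsub e2 he2 hx) with h | h | h | h | h
      · rw [h] at hx; exact absurd hx he2c'
      · rw [h] at hx; exact absurd hx he2d1'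
      · exact Or.inl h
      · exact Or.inr h
      · rw [h] at hx; exact absurd hx (hirr e2 he2)
    have hd2e2 : d2 ∈ N e2 := by
      obtain ⟨y, hy, hne⟩ := another e2 he2 e1
      rcases hNe2 y hy with h | h
      · rw [← h]; exact hy
      · exact absurd h hne
    have he1e2 : e1 ∈ N e2 := by
      obtain ⟨y, hy, hne⟩ := another e2 he2 d2
      rcases hNe2 y hy with h | h
      · exact absurd h hne
      · rw [← h]; exact hy
    have he2d2 : e2 ∈ N d2 := hsymm e2 he2 d2 hd2 hd2e2
    have he2e1 : e2 ∈ N e1 := hsymm e2 he2 e1 he1 he1e2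
    have hd1e1 : d1 ∈ N e1 := hsymm d1 hd1 e1 he1 hadj
    -- the five equations for the cycle  c, d1, e1, e2, d2
    have q1 := hsum c hc d2 (by rw [hNc]; simp) d1 (by rw [hNc]; simp) hd.symm
    have q2 := hsum d1 hd1 c hcN1 e1 hadj he1c.symm
    have q3 := hsum e1 he1 d1 hd1e1 e2 he2e1 he2d1.symm
    have q5 := hsum d2 hd2 e2 he2d2 c hcN2 he2c
    exact hcd1 (cycle_five q1 q2 q3 q5)
  -- the second neighbour of d1
  have hcN1 : c ∈ N d1 := hsymm c hc d1 hd1 (by rw [hNc]; simp)
  obtain ⟨x, y, hxy, hNd1⟩ := Finset.card_eq_two.1 (hcard d1 hd1)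
  have hz : ∃ z ∈ N d1, z ≠ c := by
    by_cases h : x = c
    · refine ⟨y, by rw [hNd1]; simp, ?_⟩
      rintro rfl; exact hxy h
    · exact ⟨x, by rw [hNd1]; simp, h⟩
  obtain ⟨z, hz, hzc⟩ := hz
  have hzd1 : z ≠ d1 := by rintro rfl; exact hirr _ hd1 hz
  rcases hTel z (hsub d1 hd1 hz) with h | h | h | h | h
  · exact hzc h
  · exact hzd1 h
  · -- triangle c, d1, d2: then e1 has at most one neighbour
    subst h
    have hzN : d1 ∈ N z := hsymm d1 hd1 z hd2 hz
    have hczN : c ∈ N z := hsymm c hc z hd2 (by rw [hNc]; simp)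
    have two : ∀ v ∈ T, ∀ x y z : ℚ, x ∈ N v → y ∈ N v → z ∈ N v → x ≠ y → z = x ∨ z = y := by
      intro v hv x y z hx hy hz hxy
      by_contra hcon
      push Not at hcon
      have h3 : ({x, y, z} : Finset ℚ).card = 3 :=
        Finset.card_eq_three.2 ⟨x, y, z, hxy, hcon.1.symm, hcon.2.symm, rfl⟩
      have hle : ({x, y, z} : Finset ℚ).card ≤ (N v).card := by
        apply Finset.card_le_card
        intro u hu; simp only [Finset.mem_insert, Finset.mem_singleton] at hu
        rcases hu with rfl | rfl | rfl <;> assumption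
      rw [hcard v hv, h3] at hle
      omega
    obtain ⟨he1T, he1c, he1d1, he1z⟩ := hmem e1 (Or.inl rfl)
    have hall : ∀ w ∈ N e1, w = e2 := by
      intro w hw
      have hwT := hsub e1 he1T hw
      have hw' := hsymm e1 he1T w hwT hw
      rcases hTel w hwT with h | h | h | h | h
      · rw [h, hNc] at hw'; simp only [Finset.mem_insert, Finset.mem_singleton] at hw'
        rcases hw' with h' | h'
        · exact absurd h' he1d1
        · exact absurd h' he1z
      · rw [h] at hw'
        rcases two d1 hd1 c z e1 hcN1 hz hw' hzc.symm with h' | h'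
        · exact absurd h' he1c
        · exact absurd h' he1z
      · rw [h] at hw'
        rcases two z hd2 c d1 e1 hczN hzN hw' hcd1 with h' | h'
        · exact absurd h' he1c
        · exact absurd h' he1d1
      · rw [h] at hw; exact absurd hw (hirr e1 he1T)
      · exact h
    have : (N e1).card ≤ 1 := Finset.card_le_one.2 (fun a ha b hb => by
        rw [hall a ha, hall b hb])
    rw [hcard e1 he1T] at this; omega
  · subst h
    exact key z e2 he (hmem z (Or.inl rfl)) (hmem e2 (Or.inr rfl)) hTel hz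
  · subst h
    exact key z e1 he.symm (hmem z (Or.inr rfl)) (hmem e1 (Or.inl rfl))
      (fun x hx => by rcases hTel x hx with h | h | h | h | h <;> tauto) hz

end Pool.Agent.Run7.h789
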